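import Pool.Agent.Helper54.GS.Defs

/-!
# GS-7: lifting an element of order p from a quotient of SL(V)
-/

set_option autoImplicit false
set_option linter.unusedVariables false
set_option linter.unusedSectionVars false

namespace Pool.Agent.Helper54.GS

/-- in a finite group every element is, modulo a homomorphism killing `p`-th powers,
the image of a `p`-element -/
private theorem h16_pElt {G Q : Type} [Group G] [Finite G] [Group Q] {p : ℕ} [Fact p.Prime]
    (π : G →* Q) (g : G) (ht : orderOf (π g) = p) :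
    ∃ (h : G) (b : ℕ), π h = π g ∧ orderOf h = p ^ b := by
  have hp : p.Prime := Fact.out
  have hn : orderOf g ≠ 0 := (orderOf_pos g).ne'
  obtain ⟨a, m, hm, hnm⟩ := Nat.exists_eq_pow_mul_and_not_dvd hn p hp.ne_one
  have hcop : Nat.Coprime m (p ^ a) := by
    apply Nat.Coprime.pow_right
    exact ((Nat.Prime.coprime_iff_not_dvd hp).2 hm).symm
  have hpn : p ∣ orderOf g := by
    rw [← ht]
    exact orderOf_map_dvd π g
  have ha : a ≠ 0 := by
    rintro rfl
    rw [pow_zero, one_mul] at hnm
    rw [hnm] at hpn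
    exact hm hpn
  obtain ⟨k, hk1, hk2⟩ := Nat.chineseRemainder hcop 0 1
  refine ⟨g ^ k, a, ?_, ?_⟩
  · rw [map_pow]
    have h1 : k ≡ 1 [MOD p] := hk2.of_dvd (dvd_pow_self p ha)
    have h2 : (π g) ^ k = (π g) ^ 1 := by
      rw [pow_eq_pow_iff_modEq, ht]
      exact h1
    rw [h2, pow_one]
  · have hmk : m ∣ k := (Nat.modEq_zero_iff_dvd).1 hk1
    rw [orderOf_pow, hnm]
    have hmpos : 0 < m := by
      rcases Nat.eq_zero_or_pos m with h | h
      · rw [h] at hm
        exact absurd (dvd_zero p) hm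
      · exact h
    have hkp : Nat.Coprime k (p ^ a) := by
      have : Nat.gcd k (p ^ a) = Nat.gcd 1 (p ^ a) := hk2.gcd_eq
      rw [Nat.gcd_one_left] at this
      exact this
    have hg : Nat.gcd (p ^ a * m) k = m := by
      rw [Nat.Coprime.gcd_mul_left_cancel m hkp.symm]
      exact Nat.gcd_eq_left hmk
    rw [hg]
    exact Nat.mul_div_cancel _ hmpos

section
variable {p : ℕ} [Fact p.Prime] {𝔽 : Type} [Field 𝔽] [Finite 𝔽] [CharP 𝔽 p]
  {V : Type} [AddCommGroup V] [Module 𝔽 V] [FiniteDimensional 𝔽 V]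

private theorem h16_finite_SL : Finite (SpecialLinearGroup 𝔽 V) := by
  haveI : Finite V := Module.finite_of_finite 𝔽
  haveI : Finite (V ≃ₗ[𝔽] V) := Finite.of_injective (fun e => (e : V → V)) DFunLike.coe_injective
  exact inferInstanceAs (Finite {u : V ≃ₗ[𝔽] V // u.det = 1})

/-- GS-7 -/
theorem exists_lift {Q : Type} [Group Q]
    (π : SpecialLinearGroup 𝔽 V →* Q) (hπ : Function.Surjective π) (t : Q) (ht : orderOf t = p)
    (hn : ∀ τ : SpecialLinearGroup 𝔽 V, orderOf τ = p →
      Subgroup.normalClosure ({τ} : Set (SpecialLinearGroup 𝔽 V)) = ⊤) :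
    ∃ τ : SpecialLinearGroup 𝔽 V, orderOf τ = p ∧ π τ = t := by
  have hp : p.Prime := Fact.out
  haveI : Finite (SpecialLinearGroup 𝔽 V) := h16_finite_SL
  obtain ⟨g, rfl⟩ := hπ t
  obtain ⟨h, b, hh, hb⟩ := h16_pElt π g ht
  rcases Nat.lt_or_ge b 2 with hlt | hge
  · refine ⟨h, ?_, hh⟩
    have hdvd : p ∣ orderOf h := by
      rw [← ht, ← hh]
      exact orderOf_map_dvd π h
    have : b = 1 := by
      rcases Nat.eq_zero_or_pos b with h0 | h0
      · rw [hb, h0, pow_zero] at hdvd
        exact absurd (Nat.dvd_one.1 hdvd) hp.ne_one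
      · omega
    rw [hb, this, pow_one]
  · exfalso
    obtain ⟨c, rfl⟩ : ∃ c, b = c + 1 := ⟨b - 1, by omega⟩
    have hc : 1 ≤ c := by omega
    have ho : orderOf (h ^ p ^ c) = p := by
      rw [orderOf_pow, hb]
      have : Nat.gcd (p ^ (c + 1)) (p ^ c) = p ^ c :=
        Nat.gcd_eq_right (pow_dvd_pow p (Nat.le_succ c))
      rw [this, pow_succ]
      exact Nat.mul_div_cancel_left _ (pow_pos hp.pos c)
    have hker : h ^ p ^ c ∈ π.ker := by
      rw [MonoidHom.mem_ker, map_pow, hh]
      obtain ⟨d, rfl⟩ : ∃ d, c = d + 1 := ⟨c - 1, by omega⟩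
      rw [pow_succ, mul_comm, pow_mul]
      have h1 : π g ^ p = 1 := by
        rw [← ht]
        exact pow_orderOf_eq_one _
      rw [h1, one_pow]
    have htop : π.ker = ⊤ := by
      rw [eq_top_iff, ← hn _ ho]
      exact Subgroup.normalClosure_le_normal (by
        intro x hx
        rw [Set.mem_singleton_iff] at hx
        rw [hx]
        exact hker)
    have hg1 : π g = 1 := by
      have : g ∈ π.ker := by
        rw [htop]
        exact Subgroup.mem_top g
      exact this
    rw [hg1, orderOf_one] at ht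
    exact hp.ne_one ht.symm

end

end Pool.Agent.Helper54.GS
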