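import Pool.Agent.Helper54.GS.Defs

/-!
# GS-1: the stabiliser of a vector in SL(V) maps onto SL(V/v) with kernel a p-group
-/

set_option autoImplicit false
set_option linter.unusedVariables false
set_option linter.unusedSectionVars false

namespace Pool.Agent.Helper54.GS

section
variable {𝔽 : Type} [Field 𝔽] {V : Type} [AddCommGroup V] [Module 𝔽 V]

private theorem h16_fix_span {v : V} (e : V →ₗ[𝔽] V) (he : e v = v) (w : V)
    (hw : w ∈ Submodule.span 𝔽 {v}) : e w = w := by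
  obtain ⟨a, rfl⟩ := Submodule.mem_span_singleton.1 hw
  rw [map_smul, he]

private theorem h16_le_comap {v : V} (e : V →ₗ[𝔽] V) (he : e v = v) :
    Submodule.span 𝔽 {v} ≤ (Submodule.span 𝔽 {v}).comap e := by
  intro w hw
  rw [Submodule.mem_comap, h16_fix_span e he w hw]
  exact hw

private theorem h16_det [FiniteDimensional 𝔽 V] {v : V} (e : V →ₗ[𝔽] V) (he : e v = v)
    (hc : Submodule.span 𝔽 {v} ≤ (Submodule.span 𝔽 {v}).comap e) :
    LinearMap.det e =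
      LinearMap.det ((Submodule.span 𝔽 {v}).mapQ (Submodule.span 𝔽 {v}) e hc) := by
  have h := LinearMap.det_eq_det_mul_det (Submodule.span 𝔽 {v}) e hc
  have hr : e.restrict hc = LinearMap.id := by
    ext w
    rw [LinearMap.restrict_coe_apply, LinearMap.id_apply]
    exact h16_fix_span e he w.1 w.2
  rw [h, hr, LinearMap.det_id, one_mul]

private theorem h16_map_eq {v : V} (e : V ≃ₗ[𝔽] V) (he : e v = v) :
    (Submodule.span 𝔽 {v}).map (e : V →ₗ[𝔽] V) = Submodule.span 𝔽 {v} := by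
  rw [Submodule.map_span, Set.image_singleton]
  congr 2

private noncomputable def h16_quot {v : V} (e : V ≃ₗ[𝔽] V) (he : e v = v) :
    (V ⧸ Submodule.span 𝔽 {v}) ≃ₗ[𝔽] (V ⧸ Submodule.span 𝔽 {v}) :=
  Submodule.Quotient.equiv _ _ e (h16_map_eq e he)

private theorem h16_quot_mk {v : V} (e : V ≃ₗ[𝔽] V) (he : e v = v) (x : V) :
    h16_quot e he (Submodule.Quotient.mk x) = Submodule.Quotient.mk (e x) := rfl

private theorem h16_quot_det [FiniteDimensional 𝔽 V] {v : V} (e : V ≃ₗ[𝔽] V) (he : e v = v) :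
    LinearEquiv.det (h16_quot e he) = LinearEquiv.det e := by
  have hc := h16_le_comap (e : V →ₗ[𝔽] V) he
  have h := h16_det (e : V →ₗ[𝔽] V) he hc
  have h2 : ((h16_quot e he : (V ⧸ Submodule.span 𝔽 {v}) ≃ₗ[𝔽] (V ⧸ Submodule.span 𝔽 {v})) :
      (V ⧸ Submodule.span 𝔽 {v}) →ₗ[𝔽] (V ⧸ Submodule.span 𝔽 {v})) =
      (Submodule.span 𝔽 {v}).mapQ (Submodule.span 𝔽 {v}) (e : V →ₗ[𝔽] V) hc := by
    apply LinearMap.ext
    intro x
    obtain ⟨y, rfl⟩ := Submodule.Quotient.mk_surjective _ x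
    rfl
  rw [← Units.val_inj, LinearEquiv.coe_det, LinearEquiv.coe_det, h, h2]

private theorem h16_stv {v : V} (g : Stv (𝔽 := 𝔽) v) :
    ((g : SpecialLinearGroup 𝔽 V) : V ≃ₗ[𝔽] V) v = v := g.2

private noncomputable def h16_pi [FiniteDimensional 𝔽 V] (v : V) :
    Stv (𝔽 := 𝔽) v →* SpecialLinearGroup 𝔽 (V ⧸ Submodule.span 𝔽 {v}) where
  toFun g := ⟨h16_quot ((g : SpecialLinearGroup 𝔽 V) : V ≃ₗ[𝔽] V) (h16_stv g), by
    rw [h16_quot_det]
    exact (g : SpecialLinearGroup 𝔽 V).2⟩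
  map_one' := by
    apply SpecialLinearGroup.ext
    intro x
    obtain ⟨y, rfl⟩ := Submodule.Quotient.mk_surjective _ x
    rfl
  map_mul' a b := by
    apply SpecialLinearGroup.ext
    intro x
    obtain ⟨y, rfl⟩ := Submodule.Quotient.mk_surjective _ x
    rfl

private theorem h16_pi_mk [FiniteDimensional 𝔽 V] (v : V) (g : Stv (𝔽 := 𝔽) v) (x : V) :
    h16_pi v g (Submodule.Quotient.mk x) =
      (Submodule.Quotient.mk ((g : SpecialLinearGroup 𝔽 V) x) :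
        V ⧸ Submodule.span 𝔽 {v}) := rfl

private theorem h16_pi_surj [FiniteDimensional 𝔽 V] (v : V) :
    Function.Surjective (h16_pi (𝔽 := 𝔽) v) := by
  intro h
  obtain ⟨s, hs⟩ := LinearMap.exists_rightInverse_of_surjective
    (Submodule.mkQ (Submodule.span 𝔽 {v})) (Submodule.range_mkQ _)
  have hs' : ∀ y : V ⧸ Submodule.span 𝔽 {v},
      (Submodule.span 𝔽 {v}).mkQ (s y) = y := fun y => LinearMap.congr_fun hs y
  have hv0 : (Submodule.span 𝔽 {v}).mkQ v = 0 := by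
    rw [Submodule.mkQ_apply, Submodule.Quotient.mk_eq_zero]
    exact Submodule.mem_span_singleton_self v
  let G : ((V ⧸ Submodule.span 𝔽 {v}) ≃ₗ[𝔽] (V ⧸ Submodule.span 𝔽 {v})) → (V →ₗ[𝔽] V) :=
    fun k => s ∘ₗ (k : (V ⧸ Submodule.span 𝔽 {v}) →ₗ[𝔽] (V ⧸ Submodule.span 𝔽 {v})) ∘ₗ
        (Submodule.span 𝔽 {v}).mkQ +
      (LinearMap.id - s ∘ₗ (Submodule.span 𝔽 {v}).mkQ)
  have hG : ∀ k x, G k x = s (k ((Submodule.span 𝔽 {v}).mkQ x)) +
      (x - s ((Submodule.span 𝔽 {v}).mkQ x)) := fun k x => rfl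
  have hGmk : ∀ k x, (Submodule.span 𝔽 {v}).mkQ (G k x) =
      k ((Submodule.span 𝔽 {v}).mkQ x) := by
    intro k x
    rw [hG, map_add, map_sub, hs', hs', sub_self, add_zero]
  have hinv : ∀ k k' : ((V ⧸ Submodule.span 𝔽 {v}) ≃ₗ[𝔽] (V ⧸ Submodule.span 𝔽 {v})),
      (∀ y, k (k' y) = y) → ∀ x, G k (G k' x) = x := by
    intro k k' hk x
    rw [hG k (G k' x), hGmk, hk, hG k' x]
    abel
  let e : V ≃ₗ[𝔽] V := LinearEquiv.ofLinear (G h.1) (G h.1.symm)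
    (LinearMap.ext (hinv h.1 h.1.symm (fun y => h.1.apply_symm_apply y)))
    (LinearMap.ext (hinv h.1.symm h.1 (fun y => h.1.symm_apply_apply y)))
  have he : ∀ x, e x = G h.1 x := fun x => rfl
  have hev : e v = v := by
    rw [he, hG, hv0, map_zero, map_zero, sub_zero, zero_add]
  have hq : h16_quot e hev = h.1 := by
    apply LinearEquiv.ext
    intro x
    obtain ⟨y, rfl⟩ := Submodule.Quotient.mk_surjective _ x
    exact hGmk h.1 y
  have hdet : LinearEquiv.det e = 1 := by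
    rw [← h16_quot_det e hev, hq]
    exact h.2
  refine ⟨⟨⟨e, hdet⟩, hev⟩, ?_⟩
  apply Subtype.ext
  exact hq

private theorem h16_pow {v : V} (g : Stv (𝔽 := 𝔽) v)
    (hg : ∀ x : V, (g : SpecialLinearGroup 𝔽 V) x - x ∈ Submodule.span 𝔽 {v}) (n : ℕ) (x : V) :
    (((g ^ n : Stv (𝔽 := 𝔽) v)) : SpecialLinearGroup 𝔽 V) x =
      x + n • ((g : SpecialLinearGroup 𝔽 V) x - x) := by
  induction n with
  | zero =>
    rw [zero_smul, add_zero]
    rfl
  | succ n ih =>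
    have h1 : (((g ^ (n + 1) : Stv (𝔽 := 𝔽) v)) : SpecialLinearGroup 𝔽 V) x =
        ((g : SpecialLinearGroup 𝔽 V) : V ≃ₗ[𝔽] V)
          ((((g ^ n : Stv (𝔽 := 𝔽) v)) : SpecialLinearGroup 𝔽 V) x) := by
      rw [pow_succ']
      rfl
    rw [h1, ih, map_add, map_nsmul]
    have h2 : ((g : SpecialLinearGroup 𝔽 V) : V ≃ₗ[𝔽] V)
        ((g : SpecialLinearGroup 𝔽 V) x - x) = (g : SpecialLinearGroup 𝔽 V) x - x :=
      h16_fix_span (((g : SpecialLinearGroup 𝔽 V) : V ≃ₗ[𝔽] V) : V →ₗ[𝔽] V) (h16_stv g) _ (hg x)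
    rw [h2, add_smul, one_smul]
    abel

end

section
variable {p : ℕ} [Fact p.Prime] {𝔽 : Type} [Field 𝔽] [Finite 𝔽] [CharP 𝔽 p]
  {V : Type} [AddCommGroup V] [Module 𝔽 V] [FiniteDimensional 𝔽 V]

/-- GS-1 -/
theorem exists_stabMap (p : ℕ) [Fact p.Prime] [CharP 𝔽 p] (v : V) (hv : v ≠ 0) :
    ∃ π : Stv (𝔽 := 𝔽) v →* SpecialLinearGroup 𝔽 (V ⧸ Submodule.span 𝔽 {v}),
      Function.Surjective π ∧ IsPGroup p π.ker ∧
      ∀ (g : Stv (𝔽 := 𝔽) v) (x : V), π g (Submodule.Quotient.mk x) =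
        (Submodule.Quotient.mk ((g : SpecialLinearGroup 𝔽 V) x) : V ⧸ Submodule.span 𝔽 {v}) := by
  refine ⟨h16_pi v, h16_pi_surj v, ?_, h16_pi_mk v⟩
  intro g
  refine ⟨1, ?_⟩
  rw [pow_one]
  have hg : ∀ x : V, ((g : Stv (𝔽 := 𝔽) v) : SpecialLinearGroup 𝔽 V) x - x ∈
      Submodule.span 𝔽 {v} := by
    intro x
    have h1 : h16_pi v (g : Stv (𝔽 := 𝔽) v) = 1 := g.2
    have h2 := h16_pi_mk v (g : Stv (𝔽 := 𝔽) v) x
    rw [h1] at h2
    exact (Submodule.Quotient.eq _).1 h2.symm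
  apply Subtype.ext
  apply Subtype.ext
  apply SpecialLinearGroup.ext
  intro x
  have h3 := h16_pow (g : Stv (𝔽 := 𝔽) v) hg p x
  have h4 : p • (((g : Stv (𝔽 := 𝔽) v) : SpecialLinearGroup 𝔽 V) x - x) = 0 := by
    rw [← Nat.cast_smul_eq_nsmul 𝔽, CharP.cast_eq_zero, zero_smul]
  rw [h4, add_zero] at h3
  exact h3

end

end Pool.Agent.Helper54.GS
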